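import Pool.Agent.H73.SMD.Stmts

/-! Board smd, row LEV (helper72): level sets of maps of rank one meet the line w = 0. -/

set_option autoImplicit false

open Set Filter Topology MeasureTheory Metric

namespace Pool.SMD

open Pool.PHS Pool.LPC

/-- Lipschitz estimate in the second variable -/
theorem lev_lip {n : ℕ} {R : ℝ} {E : ℂ × ℂ → Cn n} (hR : 0 < R)
    (hE : DifferentiableOn ℂ E (ball 0 R ×ˢ ball 0 R)) :
    ∃ Λ : ℝ, 0 < Λ ∧ ∀ u w : ℂ, ‖u‖ ≤ R / 2 → ‖w‖ < R / 2 →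
      ‖E (u, w) - E (u, 0)‖ ≤ Λ * ‖w‖ := by
  have hK : IsCompact (closedBall (0 : ℂ) (R / 2) ×ˢ closedBall (0 : ℂ) (R / 2)) :=
    (isCompact_closedBall _ _).prod (isCompact_closedBall _ _)
  have hsub : closedBall (0 : ℂ) (R / 2) ×ˢ closedBall (0 : ℂ) (R / 2) ⊆
      ball (0 : ℂ) R ×ˢ ball (0 : ℂ) R := by
    apply Set.prod_mono <;> exact closedBall_subset_ball (by linarith)
  obtain ⟨M, hM⟩ := hK.exists_bound_of_continuousOn (hE.continuousOn.mono hsub)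
  have hM0 : 0 ≤ M := by
    have := hM ((0 : ℂ), (0 : ℂ)) ⟨mem_closedBall_self (by linarith), mem_closedBall_self (by linarith)⟩
    exact (norm_nonneg _).trans this
  refine ⟨2 * (M + 1) / (R / 2), by positivity, ?_⟩
  intro u w hu hw
  have hd : DifferentiableOn ℂ (fun z : ℂ => E (u, z)) (ball (0 : ℂ) (R / 2)) := by
    have hm : MapsTo (fun z : ℂ => (u, z)) (ball (0 : ℂ) (R / 2)) (ball (0 : ℂ) R ×ˢ ball (0 : ℂ) R) := by
      intro z hz
      refine ⟨?_, ?_⟩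
      · rw [mem_ball_zero_iff]
        exact lt_of_le_of_lt hu (by linarith)
      · exact ball_subset_ball (by linarith) hz
    exact hE.comp ((differentiableOn_const _).prodMk differentiableOn_id) hm
  have hmaps : MapsTo (fun z : ℂ => E (u, z)) (ball (0 : ℂ) (R / 2))
      (closedBall (E (u, 0)) (2 * (M + 1))) := by
    intro z hz
    have h1 : ‖E (u, z)‖ ≤ M := hM (u, z) ⟨by simpa using hu, ball_subset_closedBall hz⟩
    have h2 : ‖E (u, 0)‖ ≤ M := hM (u, 0) ⟨by simpa using hu, mem_closedBall_self (by linarith)⟩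
    rw [mem_closedBall, dist_eq_norm]
    calc ‖E (u, z) - E (u, 0)‖ ≤ ‖E (u, z)‖ + ‖E (u, 0)‖ := norm_sub_le _ _
      _ ≤ 2 * (M + 1) := by linarith
  have h := Complex.dist_le_div_mul_dist_of_mapsTo_ball hd hmaps (z := w) (by simpa using hw)
  simpa [dist_eq_norm] using h

/-- the clopen argument -/
theorem lev_clopen (hLOC : LOCStmt) {n : ℕ} {R r s : ℝ} {E : ℂ × ℂ → Cn n} {y : Cn n} (hr : 0 < r)
    (hrR : r < R) (hs : 0 < s) (hsR : s < R)
    (hE : DifferentiableOn ℂ E (ball 0 R ×ˢ ball 0 R)) (hRk : RankOne E (ball 0 R ×ˢ ball 0 R))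
    (hb : ∀ u w : ℂ, ‖u‖ = r → ‖w‖ < s → E (u, w) ≠ y)
    (hne : ∃ u w : ℂ, ‖u‖ < r ∧ ‖w‖ < s ∧ E (u, w) = y) :
    ∃ u : ℂ, ‖u‖ < r ∧ E (u, 0) = y := by
  have hBO : IsOpen (ball (0 : ℂ) R ×ˢ ball (0 : ℂ) R) := isOpen_ball.prod isOpen_ball
  have hOO : IsOpen (ball (0 : ℂ) r ×ˢ ball (0 : ℂ) s) := isOpen_ball.prod isOpen_ball
  have hsub : ball (0 : ℂ) r ×ˢ ball (0 : ℂ) s ⊆ ball (0 : ℂ) R ×ˢ ball (0 : ℂ) R :=
    Set.prod_mono (ball_subset_ball hrR.le) (ball_subset_ball hsR.le)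
  have hRk' : RankOne E (ball (0 : ℂ) r ×ˢ ball (0 : ℂ) s) := fun p hp => hRk p (hsub hp)
  let W : Set ℂ := {w | ‖w‖ < s ∧ ∃ z, ‖z‖ < r ∧ E (z, w) = y}
  have hWo : IsOpen W := by
    rw [isOpen_iff_mem_nhds]
    rintro w₀ ⟨hw0, z₀, hz0, he⟩
    have hnc : ¬ ∀ᶠ z in 𝓝 z₀, E (z, w₀) = E (z₀, w₀) := by
      intro hev
      have hd : DifferentiableOn ℂ (fun z : ℂ => E (z, w₀)) (ball (0 : ℂ) R) := by
        have hm : MapsTo (fun z : ℂ => (z, w₀)) (ball (0 : ℂ) R) (ball (0 : ℂ) R ×ˢ ball (0 : ℂ) R) := by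
          intro z hz
          refine ⟨hz, ?_⟩
          rw [mem_ball_zero_iff]
          exact hw0.trans hsR
        exact hE.comp (differentiableOn_id.prodMk (differentiableOn_const _)) hm
      have ha : AnalyticOnNhd ℂ (fun z : ℂ => E (z, w₀)) (ball (0 : ℂ) R) :=
        hd.analyticOnNhd isOpen_ball
      have hc : AnalyticOnNhd ℂ (fun _ : ℂ => y) (ball (0 : ℂ) R) := analyticOnNhd_const
      have hEq := ha.eqOn_of_preconnected_of_eventuallyEq hc (convex_ball _ _).isPreconnected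
        (show z₀ ∈ ball (0:ℂ) R by rw [mem_ball_zero_iff]; exact hz0.trans hrR)
        (by filter_upwards [hev] with z hz; rw [hz, he])
      have hrn : ‖((r : ℝ) : ℂ)‖ = r := by
        rw [Complex.norm_real, Real.norm_eq_abs, abs_of_pos hr]
      have hrm : ((r : ℝ) : ℂ) ∈ ball (0 : ℂ) R := by
        rw [mem_ball_zero_iff, hrn]
        exact hrR
      exact hb ((r : ℝ) : ℂ) w₀ hrn hw0 (hEq hrm)
    have hloc := hLOC n (ball (0 : ℂ) r ×ˢ ball (0 : ℂ) s) E z₀ w₀ hOO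
      ⟨by simpa using hz0, by simpa using hw0⟩ (hE.mono hsub) hRk' hnc
    filter_upwards [hloc] with w hw
    obtain ⟨z, hz, hz2⟩ := hw
    exact ⟨by simpa using hz.2, z, by simpa using hz.1, hz2.trans he⟩
  have hWne : (ball (0 : ℂ) s ∩ W).Nonempty := by
    obtain ⟨u, w, hu, hw, he⟩ := hne
    exact ⟨w, by simpa using hw, hw, u, hu, he⟩
  have hWc : closure W ∩ ball (0 : ℂ) s ⊆ W := by
    rintro w ⟨hwc, hwb⟩
    have hwb' : ‖w‖ < s := by simpa using hwb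
    rw [mem_closure_iff_seq_limit] at hwc
    obtain ⟨x, hx, hlim⟩ := hwc
    choose hx1 z hz1 hz2 using hx
    have hzc : ∀ i, z i ∈ closedBall (0 : ℂ) r := by
      intro i
      rw [mem_closedBall_zero_iff]
      exact (hz1 i).le
    obtain ⟨a, ha, φ, hφ, hlim2⟩ := (isCompact_closedBall (0 : ℂ) r).tendsto_subseq hzc
    have ha' : ‖a‖ ≤ r := mem_closedBall_zero_iff.1 ha
    have haw : (a, w) ∈ ball (0 : ℂ) R ×ˢ ball (0 : ℂ) R := by
      refine ⟨?_, ?_⟩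
      · rw [mem_ball_zero_iff]
        linarith
      · rw [mem_ball_zero_iff]
        linarith
    have hcont : ContinuousAt E (a, w) := hE.continuousOn.continuousAt (hBO.mem_nhds haw)
    have hl3 : Tendsto (fun i => ((z ∘ φ) i, x (φ i))) atTop (𝓝 (a, w)) :=
      hlim2.prodMk_nhds (hlim.comp hφ.tendsto_atTop)
    have hl4 := hcont.tendsto.comp hl3
    have hl5 : Tendsto (fun _ : ℕ => y) atTop (𝓝 (E (a, w))) := by
      refine hl4.congr fun i => ?_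
      exact hz2 (φ i)
    have hay : E (a, w) = y := tendsto_nhds_unique hl5 tendsto_const_nhds
    have hane : ‖a‖ ≠ r := fun h => hb a w h hwb' hay
    exact ⟨hwb', a, lt_of_le_of_ne ha' hane, hay⟩
  have hsubW := (convex_ball (0 : ℂ) s).isPreconnected.subset_of_closure_inter_subset
    hWo hWne hWc
  obtain ⟨_, z, hz, hz2⟩ := hsubW (mem_ball_self hs)
  exact ⟨z, hz, hz2⟩

theorem LEV_thm (hLOC : LOCStmt) : LEVStmt := by
  intro n m R c C E hm hR hc hC hE hRk hcC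
  obtain ⟨Λ, hΛ, hlip⟩ := lev_lip hR hE
  obtain ⟨l, hl⟩ : ∃ l : ℝ, l = (C + 1) / c + 2 := ⟨_, rfl⟩
  have hCc : 0 < (C + 1) / c := by positivity
  have hl2 : 2 < l := by linarith
  have hlm : C + 1 < c * l ^ m := by
    have h1 : l ≤ l ^ m := le_self_pow₀ (by linarith) (by omega)
    have h2 : (C + 1) / c < l ^ m := by linarith
    rw [div_lt_iff₀ hc] at h2
    linarith
  obtain ⟨κ, hκ⟩ : ∃ κ : ℝ, κ = min 1 (min (R / 8) (min (R / (4 * l)) (1 / (3 * Λ)))) := ⟨_, rfl⟩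
  have hκ0 : 0 < κ := by
    rw [hκ]
    refine lt_min one_pos (lt_min (by positivity) (lt_min (by positivity) (by positivity)))
  have hκ1 : κ ≤ 1 := hκ ▸ min_le_left _ _
  have hκ2 : κ ≤ R / 8 := hκ ▸ (min_le_right _ _).trans (min_le_left _ _)
  have hκ3 : κ * (4 * l) ≤ R := by
    have : κ ≤ R / (4 * l) := hκ ▸ (min_le_right _ _).trans ((min_le_right _ _).trans (min_le_left _ _))
    rwa [le_div_iff₀ (by positivity)] at this
  have hκ4 : κ * (3 * Λ) ≤ 1 := by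
    have : κ ≤ 1 / (3 * Λ) := hκ ▸ (min_le_right _ _).trans ((min_le_right _ _).trans (min_le_right _ _))
    rwa [le_div_iff₀ (by positivity)] at this
  refine ⟨κ, l, hκ0, by linarith, ?_⟩
  intro ρ u w hρ hρκ hu hw
  have hρm : 0 < ρ ^ m := by positivity
  have hρm1 : ρ ^ m ≤ 1 := pow_le_one₀ hρ.le (by linarith)
  have hκρ : κ * ρ ^ m ≤ κ := by nlinarith
  have hlρ : l * ρ < R / 2 := by nlinarith
  have hs : 0 < 2 * (κ * ρ ^ m) := by positivity
  have hsR : 2 * (κ * ρ ^ m) < R / 2 := by linarith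
  have hur : ‖u‖ ≤ R / 2 := by nlinarith
  have hws : ‖w‖ < 2 * (κ * ρ ^ m) := by nlinarith [mul_pos hκ0 hρm]
  have huR : u ∈ ball (0 : ℂ) R := by
    rw [mem_ball_zero_iff]
    linarith
  -- the upper bound for `y`
  have hy : ‖E (u, w) - E (0, 0)‖ ≤ C * ρ ^ m + Λ * (κ * ρ ^ m) := by
    have h1 := hlip u w hur (by linarith)
    have h2 := (hcC u huR).2
    have h3 : ‖u‖ ^ m ≤ ρ ^ m := pow_le_pow_left₀ (norm_nonneg _) hu m
    have h4 : ‖E (u, w) - E (0, 0)‖ ≤ ‖E (u, w) - E (u, 0)‖ + ‖E (u, 0) - E (0, 0)‖ :=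
      norm_sub_le_norm_sub_add_norm_sub _ _ _
    have h5 : C * ‖u‖ ^ m ≤ C * ρ ^ m := mul_le_mul_of_nonneg_left h3 hC.le
    have h6 : Λ * ‖w‖ ≤ Λ * (κ * ρ ^ m) := mul_le_mul_of_nonneg_left hw hΛ.le
    linarith
  have hb : ∀ u' w' : ℂ, ‖u'‖ = l * ρ → ‖w'‖ < 2 * (κ * ρ ^ m) → E (u', w') ≠ E (u, w) := by
    intro u' w' hu' hw' he
    have huR' : u' ∈ ball (0 : ℂ) R := by
      rw [mem_ball_zero_iff]
      linarith
    have h1 := hlip u' w' (by linarith) (by linarith)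
    have h2 := (hcC u' huR').1
    have h4 : ‖E (u', 0) - E (0, 0)‖ ≤ ‖E (u', 0) - E (u', w')‖ + ‖E (u', w') - E (0, 0)‖ :=
      norm_sub_le_norm_sub_add_norm_sub _ _ _
    rw [norm_sub_rev (E (u', 0)) (E (u', w')), he] at h4
    rw [he] at h1
    rw [hu', mul_pow] at h2
    have h6 : Λ * ‖w'‖ ≤ Λ * (2 * (κ * ρ ^ m)) := mul_le_mul_of_nonneg_left hw'.le hΛ.le
    have h7 : c * (l ^ m * ρ ^ m) ≤ Λ * (2 * (κ * ρ ^ m)) + (C * ρ ^ m + Λ * (κ * ρ ^ m)) := by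
      linarith
    have h8 : Λ * (2 * (κ * ρ ^ m)) + (C * ρ ^ m + Λ * (κ * ρ ^ m)) =
        (κ * (3 * Λ) + C) * ρ ^ m := by ring
    have h9 : (κ * (3 * Λ) + C) * ρ ^ m ≤ (1 + C) * ρ ^ m :=
      mul_le_mul_of_nonneg_right (by linarith) hρm.le
    have h10 : (C + 1) * ρ ^ m < c * l ^ m * ρ ^ m := mul_lt_mul_of_pos_right hlm hρm
    nlinarith
  obtain ⟨u', hu', he'⟩ := lev_clopen hLOC (r := l * ρ) (s := 2 * (κ * ρ ^ m)) (by positivity)
    (by linarith) hs (by linarith) hE hRk hb ⟨u, w, by nlinarith, hws, rfl⟩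
  exact ⟨u', hu'.le, by linarith, he'⟩

end Pool.SMD
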